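import Pool.Agent.H547.CW.Stm

set_option autoImplicit false

namespace Pool.Agent.H671.CW64

open Finset Pool.Agent.R439.PL Pool.Agent.H547.CV Pool.Agent.H547.CW Pool.Agent.H547
open scoped Nat

theorem po_half (k : ℕ) : po (1 / 2) k = w k * (k ! : ℚ) := by
  induction k with
  | zero => simp [po, w]
  | succ k ih =>
    have h1 : po (1 / 2) (k + 1) = po (1 / 2) k * (1 / 2 + k) := by
      unfold po
      rw [prod_range_succ]
    have h2 : ((k : ℚ) + 1) * (Nat.centralBinom (k + 1) : ℚ) =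
        2 * (2 * (k : ℚ) + 1) * (Nat.centralBinom k : ℚ) := by
      have := Nat.succ_mul_centralBinom_succ k
      exact_mod_cast this
    rw [h1, ih]
    unfold w
    rw [Nat.factorial_succ]
    push_cast
    have h3 : ((k : ℚ) + 1) ≠ 0 := by positivity
    have h4 : (4 : ℚ) ^ k ≠ 0 := by positivity
    rw [pow_succ]
    field_simp
    linear_combination (-2) * h2

theorem f0 (k : ℕ) : f 0 k = w k ^ 3 := by
  have hk : (k ! : ℚ) ≠ 0 := by exact_mod_cast Nat.factorial_ne_zero k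
  unfold f
  have h1 : (1 / 2 + 2 * ((0 : ℕ) : ℚ)) = 1 / 2 := by norm_num
  have h2 : (1 / 2 - 2 * ((0 : ℕ) : ℚ)) = 1 / 2 := by norm_num
  have h3 : tau 0 = 1 := by simp [tau, po]
  rw [h1, h2, h3, po_half]
  field_simp

theorem comb (a : ℕ → ℚ) (n : ℕ) :
    ∑ i ∈ range (2 * n + 1), a i * ∑ j ∈ range (2 * n + 1 - i), a j =
      (∑ j ∈ range (n + 1), a j) ^ 2 + 2 * ∑ k ∈ range n, a (2 * n - k) * ∑ j ∈ range (k + 1), a j := by
  have e1 : 2 * n + 1 = (n + 1) + n := by omega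
  rw [e1, sum_range_add]
  have e2 : ∑ x ∈ range (n + 1), a x * ∑ j ∈ range (n + 1 + n - x), a j =
      (∑ j ∈ range (n + 1), a j) ^ 2 + ∑ x ∈ range (n + 1), ∑ y ∈ range (n - x), a x * a (n + 1 + y) := by
    rw [sq, sum_mul, ← sum_add_distrib]
    refine sum_congr rfl fun x hx => ?_
    rw [mem_range] at hx
    have e3 : n + 1 + n - x = (n + 1) + (n - x) := by omega
    rw [e3, sum_range_add, mul_add, mul_sum (range (n - x))]
  have e4 : ∑ x ∈ range (n + 1), ∑ y ∈ range (n - x), a x * a (n + 1 + y) =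
      ∑ y ∈ range n, ∑ x ∈ range (n - y), a x * a (n + 1 + y) := by
    apply sum_comm'
    intro x y
    simp only [mem_range]
    omega
  have e5 : ∑ y ∈ range n, ∑ x ∈ range (n - y), a x * a (n + 1 + y) =
      ∑ y ∈ range n, a (n + 1 + y) * ∑ x ∈ range (n - y), a x := by
    refine sum_congr rfl fun y _ => ?_
    rw [mul_sum]
    exact sum_congr rfl fun x _ => mul_comm _ _
  have e6 : ∑ x ∈ range n, a (n + 1 + x) * ∑ j ∈ range (n + 1 + n - (n + 1 + x)), a j =
      ∑ y ∈ range n, a (n + 1 + y) * ∑ x ∈ range (n - y), a x := by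
    refine sum_congr rfl fun y _ => ?_
    have : n + 1 + n - (n + 1 + y) = n - y := by omega
    rw [this]
  have e7 : ∑ k ∈ range n, a (n + 1 + n - 1 - k) * ∑ j ∈ range (k + 1), a j =
      ∑ y ∈ range n, a (n + 1 + y) * ∑ x ∈ range (n - y), a x := by
    rw [← sum_range_reflect (fun y => a (n + 1 + y) * ∑ x ∈ range (n - y), a x)]
    refine sum_congr rfl fun k hk => ?_
    rw [mem_range] at hk
    have h1 : n + 1 + (n - 1 - k) = n + 1 + n - 1 - k := by omega
    have h2 : n - (n - 1 - k) = k + 1 := by omega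
    rw [h1, h2]
  have e8 : ∑ k ∈ range n, a (2 * n - k) * ∑ j ∈ range (k + 1), a j =
      ∑ k ∈ range n, a (n + 1 + n - 1 - k) * ∑ j ∈ range (k + 1), a j := by
    refine sum_congr rfl fun k _ => ?_
    have : 2 * n - k = n + 1 + n - 1 - k := by omega
    rw [this]
  rw [e2, e4, e5, e6, e8, e7]
  ring

theorem wU {p : ℕ} [hp : Fact p.Prime] (h2 : p ≠ 2) {i : ℕ} (hi : 2 * i < p) : U p (w i) := by
  unfold w
  have u2 : U p (4 : ℚ) := by
    have h := (u2 (p := p) (lt_of_le_of_ne hp.out.two_le (Ne.symm h2))).pow 2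
    have e : (2 : ℚ) ^ 2 = 4 := by norm_num
    rwa [e] at h
  refine U.div ?_ (u2.pow i)
  have h3 : ¬ (p : ℤ) ∣ (Nat.centralBinom i : ℤ) := by
    intro h
    rw [Int.natCast_dvd_natCast] at h
    have h4 : p ∣ (2 * i)! := by
      rw [Nat.centralBinom_eq_two_mul_choose] at h
      have h5 := Nat.choose_mul_factorial_mul_factorial (show i ≤ 2 * i by omega)
      rw [← h5]
      exact Dvd.dvd.mul_right (Dvd.dvd.mul_right h _) _
    rw [hp.out.dvd_factorial] at h4
    omega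
  exact_mod_cast U_int h3

theorem six (hP : S_P) (hO : Pool.Agent.H547.CV.S_O) : S_6 := by
  intro p M hp hpM
  have hp2 : p ≠ 2 := by omega
  have hpn : p = 2 * (2 * M + 1) + 1 := by omega
  set n := 2 * M + 1 with hn
  have hpne : (p : ℚ) ≠ 0 := p_ne
  have u2' : U p (2 : ℚ) := u2 (lt_of_le_of_ne hp.out.two_le (Ne.symm hp2))
  have h2m : (1 / 2 : ℚ) ∈ Zp p := by rw [one_div]; exact u2'.2.2
  -- the key congruence
  have key : ∀ k < n, U p ((k : ℚ) + 1) ∧ U p (w (k + 1)) ∧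
      ∃ X : ℚ, I p 1 (X + 1 / 2) ∧ w (2 * n - k) = p * X / (((k : ℚ) + 1) * w (k + 1)) := by
    intro k hk
    have uk : U p ((k : ℚ) + 1) := by
      have := uNat (p := p) (k := k + 1) (by omega) (by omega)
      exact_mod_cast this
    have uw : U p (w (k + 1)) := wU hp2 (by omega)
    refine ⟨uk, uw, ((k : ℚ) + 1) * (w (k + 1) * w (2 * n - k)) / p, ?_, ?_⟩
    · have h := hO p 1 hp2 le_rfl (k + 1) (by omega) (by rw [pow_one]; omega)
      rw [pow_one, if_pos (by omega)] at h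
      have e : p - (k + 1) = 2 * n - k := by omega
      rw [e] at h
      refine icg h ?_
      push_cast
      ring
    · have h1 := uk.1
      have h2 := uw.1
      field_simp
  have hX : ∀ X : ℚ, I p 1 (X + 1 / 2) → X ∈ Zp p := by
    intro X h
    have := sub_mem h.mem h2m
    rwa [add_sub_cancel_right] at this
  have hfsmall : ∀ k < n, I p 3 (f 0 (2 * n - k)) := by
    intro k hk
    obtain ⟨uk, uw, X, hX1, hX2⟩ := key k hk
    have h1 : I p 1 (w (2 * n - k)) := by
      rw [hX2]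
      exact icg ((I_p (p := p)).mulR (mul_mem (hX X hX1) (uk.mul uw).2.2)) (by
        rw [div_eq_mul_inv]; ring)
    rw [f0]
    exact Ipow h1 3
  have hfU : ∀ k < n, U p (f 0 (k + 1)) := by
    intro k hk
    rw [f0]
    exact (key k hk).2.1.pow 3
  have hPsi : ∀ k ≤ n, Psi 0 k ∈ Zp p := by
    intro k hk
    unfold Psi
    refine sum_mem fun j hj => ?_
    rw [mem_range] at hj
    rw [f0]
    exact pow_mem (wU hp2 (by omega)).2.1 3
  -- the square
  have hsq : I p 2 (Psi 0 (n + 1)) := by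
    have h1 := hP p M hpM 0 (Nat.zero_le _)
    have h2 : Psi 0 p = Psi 0 (n + 1) + ∑ x ∈ range n, f 0 (n + 1 + x) := by
      unfold Psi
      have e : p = (n + 1) + n := by omega
      rw [e, sum_range_add]
    have h3 : I p 2 (∑ x ∈ range n, f 0 (n + 1 + x)) := by
      refine I.sum fun x hx => ?_
      rw [mem_range] at hx
      have h4 := hfsmall (n - 1 - x) (by omega)
      have e : 2 * n - (n - 1 - x) = n + 1 + x := by omega
      rw [e] at h4
      exact h4.mono (by norm_num)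
    exact icg (h1.sub h3) (by rw [h2]; ring)
  have hD : D 0 p = Psi 0 (n + 1) ^ 2 + 2 * ∑ k ∈ range n, f 0 (2 * n - k) * Psi 0 (k + 1) := by
    have h := comb (f 0) n
    unfold D Psi
    rw [← hpn] at h
    exact h
  have hSg : Sg n 0 = ∑ k ∈ range n, Psi 0 (k + 1) / (((k : ℚ) + 1) ^ 3 * f 0 (k + 1)) := by
    unfold Sg
    have h3 : tau 0 = 1 := by simp [tau, po]
    rw [h3]
    have e : n - 2 * 0 = n := by omega
    rw [e]
    refine sum_congr rfl fun k _ => ?_
    ring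
  have htot : D 0 p + (p : ℚ) ^ 3 / 4 * Sg n 0 = Psi 0 (n + 1) * Psi 0 (n + 1) +
      ∑ k ∈ range n, Psi 0 (k + 1) * (2 * (f 0 (2 * n - k) +
        (p : ℚ) ^ 3 / (8 * (((k : ℚ) + 1) ^ 3 * f 0 (k + 1))))) := by
    rw [hD, hSg, mul_sum, mul_sum, sq, add_assoc, ← sum_add_distrib]
    congr 1
    refine sum_congr rfl fun k hk => ?_
    rw [mem_range] at hk
    have h1 := (hfU k hk).1
    have h2 := (key k hk).1.1
    field_simp
    ring
  rw [htot]
  refine I.add ?_ (I.sum fun k hk => ?_)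
  · exact hsq.mul hsq
  · rw [mem_range] at hk
    obtain ⟨uk, uw, X, hX1, hX2⟩ := key k hk
    have hXm := hX X hX1
    have h1 : I p 1 (X ^ 3 + 1 / 8) := by
      have h2 : X ^ 2 - X * (1 / 2) + 1 / 2 * (1 / 2) ∈ Zp p :=
        add_mem (sub_mem (pow_mem hXm 2) (mul_mem hXm h2m)) (mul_mem h2m h2m)
      exact icg (hX1.mulR h2) (by ring)
    have h3 : I p 3 ((p : ℚ) ^ 3) := Ipow (I_p (p := p)) 3
    have h4 : f 0 (2 * n - k) + (p : ℚ) ^ 3 / (8 * (((k : ℚ) + 1) ^ 3 * f 0 (k + 1))) =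
        (p : ℚ) ^ 3 * (X ^ 3 + 1 / 8) * (((k : ℚ) + 1) ^ 3 * w (k + 1) ^ 3)⁻¹ := by
      rw [f0, f0, hX2]
      have h5 := uk.1
      have h6 := uw.1
      field_simp
    have h7 : I p 4 (f 0 (2 * n - k) + (p : ℚ) ^ 3 / (8 * (((k : ℚ) + 1) ^ 3 * f 0 (k + 1)))) := by
      rw [h4]
      exact (h3.mul h1).mulR ((uk.pow 3).mul (uw.pow 3)).2.2
    exact (h7.mulL u2'.2.1).mulL (hPsi (k + 1) (by omega))

end Pool.Agent.H671.CW64
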